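import Pool.Agent.N229.PG.Int

/-! For every `0 < α < 1` a countable peak set `E` for `A_α` with `∫ dist(·, E)^{-α} = ∞`. -/

namespace Pool.Agent.Results.MP_84bbc2_an.EveryExponent

theorem result : ∀ α : ℝ, 0 < α → α < 1 →
    ∃ E : Set ℂ, E.Countable ∧ PK.IsPeakSet α E ∧
      ∫⁻ θ : ℝ in Set.Ioc 0 (2 * Real.pi),
        ENNReal.ofReal ((Metric.infDist (Complex.exp ((θ : ℂ) * Complex.I)) E) ^ (-α)) = ⊤ := by
  intro α h0 h1
  obtain ⟨E, h2, h3, -, h4⟩ := PG.all_integrals α h0 h1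
  exact ⟨E, h2, h3, h4⟩

end Pool.Agent.Results.MP_84bbc2_an.EveryExponent
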